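import Pool.Agent.T6.H30.UG.Unif

/-!
# Amplification of stable freeness by independent retracts

Main theorem: let the group `G` be a retract of the group `H` in `n` ways which are independent of
each other (for instance `H` the direct or the free product of `n` copies of `G`). If the reduced
projective class group of `ℤ[H]` is generated by less than `n` elements, then all finitely generated
projective `ℤ[G]`-modules are stably free.

Outline. The reduced projective class group of `ℤ[H]` maps onto the `n`-th power of that of `ℤ[G]`.
So the latter is finitely generated, and if it is not trivial it has a quotient of prime order `q`;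
then `(ℤ/q)^n` would be generated by less than `n` elements.
-/

set_option autoImplicit false

namespace Pool.Agent.Results.MP_551055_al.Amplification

open Matrix

/-- All finitely generated projective `ℤ[G]`-modules are stably free. -/
def AllStablyFree (G : Type) [Group G] : Prop :=
  ∀ (P : Type) [AddCommGroup P] [Module (MonoidAlgebra ℤ G) P],
    Module.Finite (MonoidAlgebra ℤ G) P → Module.Projective (MonoidAlgebra ℤ G) P →
    ∃ n m : ℕ, Nonempty ((P × (Fin n → MonoidAlgebra ℤ G)) ≃ₗ[MonoidAlgebra ℤ G]
      (Fin m → MonoidAlgebra ℤ G))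

/-- The reduced projective class group of `ℤ[G]` is generated by (the classes of) `r` modules
`Q i`: for every finitely generated projective module `P` there are numbers `a i`, `b i`, `n`, `m`
with `P ⊕ (⊕ (Q i)^(a i)) ⊕ ℤ[G]^n ≅ (⊕ (Q i)^(b i)) ⊕ ℤ[G]^m`. -/
def ClassesGenerated (G : Type) [Group G] (r : ℕ) : Prop :=
  ∃ (Q : Fin r → Type) (_ : ∀ i, AddCommGroup (Q i)) (_ : ∀ i, Module (MonoidAlgebra ℤ G) (Q i)),
    (∀ i, Module.Finite (MonoidAlgebra ℤ G) (Q i)) ∧
    (∀ i, Module.Projective (MonoidAlgebra ℤ G) (Q i)) ∧
    ∀ (P : Type) [AddCommGroup P] [Module (MonoidAlgebra ℤ G) P],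
      Module.Finite (MonoidAlgebra ℤ G) P → Module.Projective (MonoidAlgebra ℤ G) P →
      ∃ (a b : Fin r → ℕ) (n m : ℕ), Nonempty
        ((P × (∀ i, Fin (a i) → Q i) × (Fin n → MonoidAlgebra ℤ G)) ≃ₗ[MonoidAlgebra ℤ G]
          ((∀ i, Fin (b i) → Q i) × (Fin m → MonoidAlgebra ℤ G)))

/-- Let `p l : H → G` and `i l : G → H` for `l < n` be homomorphisms of arbitrary groups with
`p l ∘ i l = 1` and `p l ∘ i k` trivial for `l ≠ k`. If the reduced projective class group of
`ℤ[H]` is generated by less than `n` elements, then all finitely generated projective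
`ℤ[G]`-modules are stably free. -/
theorem result (G H : Type) [Group G] [Group H] (n r : ℕ) (p : Fin n → (H →* G))
    (i : Fin n → (G →* H)) (h1 : ∀ l, (p l).comp (i l) = MonoidHom.id G)
    (h2 : ∀ l k, l ≠ k → (p l).comp (i k) = 1) (hr : r < n) (h : ClassesGenerated H r) :
    AllStablyFree G :=
  Pool.Agent.T6.H30.UG.amplify hr p i h1 h2 h

end Pool.Agent.Results.MP_551055_al.Amplification
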