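import Pool.Agent.T6.H30.UG.Unif

/-!
# Stable freeness and the number of generators of the projective class group

Main theorem: all finitely generated projective modules over group rings of torsion-free groups are
stably free if and only if there is a function `ρ` such that the reduced projective class group of
`ℤ[G]` is generated by `ρ d` elements for every torsion-free group `G` with `d` generators, and such
that for each `d` there is some `n` with `ρ (n * d) < n`.

Outline. Apply the amplification of independent retracts to the `n`-th direct power of a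
torsion-free group with `d` generators, and lift idempotent matrices to finitely generated
torsion-free groups.
-/

set_option autoImplicit false

namespace Pool.Agent.Results.MP_551055_al.SublinearRank

open Matrix

/-- torsion-free groups -/
def TorsionFree (G : Type) [Group G] : Prop := ∀ g : G, IsOfFinOrder g → g = 1

/-- All finitely generated projective `ℤ[G]`-modules are stably free. -/
def AllStablyFree (G : Type) [Group G] : Prop :=
  ∀ (P : Type) [AddCommGroup P] [Module (MonoidAlgebra ℤ G) P],
    Module.Finite (MonoidAlgebra ℤ G) P → Module.Projective (MonoidAlgebra ℤ G) P →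
    ∃ n m : ℕ, Nonempty ((P × (Fin n → MonoidAlgebra ℤ G)) ≃ₗ[MonoidAlgebra ℤ G]
      (Fin m → MonoidAlgebra ℤ G))

/-- The question Q1. -/
def Q1 : Prop := ∀ (G : Type) [Group G], TorsionFree G → AllStablyFree G

/-- The reduced projective class group of `ℤ[G]` is generated by (the classes of) `r` modules
`Q i`: for every finitely generated projective module `P` there are numbers `a i`, `b i`, `n`, `m`
with `P ⊕ (⊕ (Q i)^(a i)) ⊕ ℤ[G]^n ≅ (⊕ (Q i)^(b i)) ⊕ ℤ[G]^m`. -/
def ClassesGenerated (G : Type) [Group G] (r : ℕ) : Prop :=
  ∃ (Q : Fin r → Type) (_ : ∀ i, AddCommGroup (Q i)) (_ : ∀ i, Module (MonoidAlgebra ℤ G) (Q i)),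
    (∀ i, Module.Finite (MonoidAlgebra ℤ G) (Q i)) ∧
    (∀ i, Module.Projective (MonoidAlgebra ℤ G) (Q i)) ∧
    ∀ (P : Type) [AddCommGroup P] [Module (MonoidAlgebra ℤ G) P],
      Module.Finite (MonoidAlgebra ℤ G) P → Module.Projective (MonoidAlgebra ℤ G) P →
      ∃ (a b : Fin r → ℕ) (n m : ℕ), Nonempty
        ((P × (∀ i, Fin (a i) → Q i) × (Fin n → MonoidAlgebra ℤ G)) ≃ₗ[MonoidAlgebra ℤ G]
          ((∀ i, Fin (b i) → Q i) × (Fin m → MonoidAlgebra ℤ G)))

/-- Q1 holds if and only if there is a function `ρ` which bounds the number of generators of the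
reduced projective class group of all torsion-free groups with `d` generators by `ρ d`, such that
for each `d` there is some `n` with `ρ (n * d) < n`. -/
theorem result :
    Q1 ↔ ∃ ρ : ℕ → ℕ, (∀ d, ∃ n, ρ (n * d) < n) ∧
      ∀ (G : Type) [Group G], TorsionFree G → ∀ (d : ℕ) (g : Fin d → G),
        Subgroup.closure (Set.range g) = ⊤ → ClassesGenerated G (ρ d) := by
  constructor
  · intro h
    refine ⟨fun _ => 0, fun d => ⟨1, Nat.zero_lt_one⟩, fun G _ hG d g _ => ?_⟩
    exact Pool.Agent.T6.H30.UG.stablyGenerated_zero (h G hG) 0
  · rintro ⟨ρ, h1, h2⟩ G _ hG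
    exact Pool.Agent.T6.H30.UG.main_rho ρ h1
      (fun G _ hG d hd => by
        obtain ⟨g, hg⟩ := hd
        exact h2 G hG d g hg) hG

end Pool.Agent.Results.MP_551055_al.SublinearRank
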