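import Pool.Agent.T6.H30.UG.Unif

/-!
# Uniform bounds for stable freeness over group rings of torsion-free groups

Main theorem: all finitely generated projective modules over group rings of torsion-free groups are
stably free if and only if this is true with uniform bounds: for all numbers `n` and `w` there is a
number `N` such that for every torsion-free group `G` and every idempotent `n × n` matrix over
`ℤ[G]` of norm at most `w` the image becomes free after at most `N` copies of `ℤ[G]` have been
added, by means of matrices of norm at most `N`.

Outline. An idempotent matrix over `ℤ[G]` of norm at most `w` is the image of an idempotent matrix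
over the group ring of one of finitely many torsion-free groups, each the largest torsion-free
quotient of a finitely presented group.
-/

set_option autoImplicit false

namespace Pool.Agent.Results.MP_551055_al.UniformBounds

open Matrix

/-- torsion-free groups -/
def TorsionFree (G : Type) [Group G] : Prop := ∀ g : G, IsOfFinOrder g → g = 1

/-- All finitely generated projective `ℤ[G]`-modules are stably free. -/
def AllStablyFree (G : Type) [Group G] : Prop :=
  ∀ (P : Type) [AddCommGroup P] [Module (MonoidAlgebra ℤ G) P],
    Module.Finite (MonoidAlgebra ℤ G) P → Module.Projective (MonoidAlgebra ℤ G) P →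
    ∃ n m : ℕ, Nonempty ((P × (Fin n → MonoidAlgebra ℤ G)) ≃ₗ[MonoidAlgebra ℤ G]
      (Fin m → MonoidAlgebra ℤ G))

/-- The question Q1. -/
def Q1 : Prop := ∀ (G : Type) [Group G], TorsionFree G → AllStablyFree G

/-- The norm of a matrix over `ℤ[G]`: the sum of the absolute values of all coefficients. -/
def norm {G μ ν : Type} [Fintype μ] [Fintype ν] (e : Matrix μ ν (MonoidAlgebra ℤ G)) : ℕ :=
  ∑ i, ∑ j, ∑ g ∈ (e i j).coeff.support, ((e i j).coeff g).natAbs

/-- The image of the idempotent matrix `e` becomes free after `ℤ[G]^k` has been added to it, and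
this is shown by matrices `X`, `Y` of size and norm at most `N`. -/
def TrivialWithin {G : Type} [Group G] {n : ℕ} (e : Matrix (Fin n) (Fin n) (MonoidAlgebra ℤ G))
    (N : ℕ) : Prop :=
  ∃ k l : ℕ, k ≤ N ∧ l ≤ N ∧ ∃ (X : Matrix (Fin n ⊕ Fin k) (Fin l) (MonoidAlgebra ℤ G))
    (Y : Matrix (Fin l) (Fin n ⊕ Fin k) (MonoidAlgebra ℤ G)),
    norm X ≤ N ∧ norm Y ≤ N ∧ X * Y = fromBlocks e 0 0 1 ∧ Y * X = 1

/-- Q1 holds if and only if it holds with a bound which depends only on the size and the norm of
the idempotent matrix, and not on the torsion-free group. -/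
theorem result :
    Q1 ↔ ∀ n w : ℕ, ∃ N : ℕ, ∀ (G : Type) [Group G], TorsionFree G →
      ∀ e : Matrix (Fin n) (Fin n) (MonoidAlgebra ℤ G), e * e = e → norm e ≤ w →
        TrivialWithin e N := by
  constructor
  · intro h n w
    exact Pool.Agent.T6.H30.UG.uniform
      (fun i => h _ (Pool.Agent.T6.H30.UG.Q_TF i)) n w
  · intro h G _ hG
    refine Pool.Agent.T6.H30.UG.all_of_triv fun n e he => ?_
    obtain ⟨N, hN⟩ := h n (norm e)
    exact ⟨N, hN G hG e he le_rfl⟩

end Pool.Agent.Results.MP_551055_al.UniformBounds
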