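import Pool.Agent.T6.H30.UG.Unif

/-!
# A universal torsion-free group for stable freeness

Main theorem: there is a countable torsion-free group `U` (a direct sum of countably many copies of
the largest torsion-free quotients of all finitely presented groups) such that every idempotent
matrix over the group ring of any torsion-free group is the image of an idempotent matrix over
`ℤ[U]`. All finitely generated projective modules over group rings of torsion-free groups are
stably free if and only if this holds for `U`, and if and only if the reduced projective class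
group of `ℤ[U]` is finitely generated.

Outline. An idempotent matrix over `ℤ[G]` is lifted to a matrix over the group ring of a free
group; its square is equal to it modulo finitely many relations between elements of the supports,
and the largest torsion-free quotient of the free group by these relations maps to `G`. If the
reduced projective class group of `ℤ[U]` is generated by `r` classes, then, since `U` has each of
the building blocks as a retract in `r + 1` independent ways, the class group of a building block
is trivial.
-/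

set_option autoImplicit false

namespace Pool.Agent.Results.MP_551055_al.UniversalGroup

open Matrix

/-- torsion-free groups -/
def TorsionFree (G : Type) [Group G] : Prop := ∀ g : G, IsOfFinOrder g → g = 1

/-- All finitely generated projective `ℤ[G]`-modules are stably free. -/
def AllStablyFree (G : Type) [Group G] : Prop :=
  ∀ (P : Type) [AddCommGroup P] [Module (MonoidAlgebra ℤ G) P],
    Module.Finite (MonoidAlgebra ℤ G) P → Module.Projective (MonoidAlgebra ℤ G) P →
    ∃ n m : ℕ, Nonempty ((P × (Fin n → MonoidAlgebra ℤ G)) ≃ₗ[MonoidAlgebra ℤ G]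
      (Fin m → MonoidAlgebra ℤ G))

/-- The question Q1. -/
def Q1 : Prop := ∀ (G : Type) [Group G], TorsionFree G → AllStablyFree G

/-- The reduced projective class group of `ℤ[G]` is generated by (the classes of) `r` modules
`Q i`: for every finitely generated projective module `P` there are numbers `a i`, `b i`, `n`, `m`
with `P ⊕ (⊕ (Q i)^(a i)) ⊕ ℤ[G]^n ≅ (⊕ (Q i)^(b i)) ⊕ ℤ[G]^m`. -/
def ClassesGenerated (G : Type) [Group G] (r : ℕ) : Prop :=
  ∃ (Q : Fin r → Type) (_ : ∀ i, AddCommGroup (Q i)) (_ : ∀ i, Module (MonoidAlgebra ℤ G) (Q i)),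
    (∀ i, Module.Finite (MonoidAlgebra ℤ G) (Q i)) ∧
    (∀ i, Module.Projective (MonoidAlgebra ℤ G) (Q i)) ∧
    ∀ (P : Type) [AddCommGroup P] [Module (MonoidAlgebra ℤ G) P],
      Module.Finite (MonoidAlgebra ℤ G) P → Module.Projective (MonoidAlgebra ℤ G) P →
      ∃ (a b : Fin r → ℕ) (n m : ℕ), Nonempty
        ((P × (∀ i, Fin (a i) → Q i) × (Fin n → MonoidAlgebra ℤ G)) ≃ₗ[MonoidAlgebra ℤ G]
          ((∀ i, Fin (b i) → Q i) × (Fin m → MonoidAlgebra ℤ G)))

/-- The smallest normal subgroup of `F` which contains `R` and all roots of its elements. -/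
def isolatedClosure {F : Type} [Group F] (R : Set F) : Subgroup F :=
  sInf {N : Subgroup F | N.Normal ∧ R ⊆ N ∧ ∀ (g : F) (n : ℕ), 0 < n → g ^ n ∈ N → g ∈ N}

instance {F : Type} [Group F] (R : Set F) : (isolatedClosure R).Normal :=
  Pool.Agent.T6.H30.UG.NS_normal R

/-- The largest torsion-free quotient of the group with `m` generators and the relators `R`. -/
abbrev TFQ (m : ℕ) (R : Finset (FreeGroup (Fin m))) : Type :=
  FreeGroup (Fin m) ⧸ isolatedClosure (R : Set (FreeGroup (Fin m)))

/-- Every idempotent matrix over `ℤ[G]`, `G` torsion-free, is the image of an idempotent matrix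
over the group ring of one of the countably many torsion-free groups `TFQ m R`; and there is one
countable torsion-free group `U` such that every idempotent matrix over `ℤ[G]`, `G` torsion-free, is
the image of an idempotent matrix over `ℤ[U]` under a homomorphism `U → G`; Q1 holds if and only if
it holds for `U`, and if and only if the reduced projective class group of `ℤ[U]` is finitely
generated. -/
theorem result :
    ((∀ (G : Type) [Group G], TorsionFree G → ∀ (n : ℕ)
        (e : Matrix (Fin n) (Fin n) (MonoidAlgebra ℤ G)), e * e = e →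
        ∃ (m : ℕ) (R : Finset (FreeGroup (Fin m))) (φ : TFQ m R →* G)
          (f : Matrix (Fin n) (Fin n) (MonoidAlgebra ℤ (TFQ m R))),
          f * f = f ∧ f.map (MonoidAlgebra.mapDomainRingHom ℤ φ) = e) ∧
      (∀ m R, TorsionFree (TFQ m R)) ∧
      (Q1 ↔ ∀ m R, AllStablyFree (TFQ m R))) ∧
    (∃ (U : Type) (_ : Group U), Countable U ∧ TorsionFree U ∧
      (∀ (G : Type) [Group G], TorsionFree G → ∀ (n : ℕ)
        (e : Matrix (Fin n) (Fin n) (MonoidAlgebra ℤ G)), e * e = e →
        ∃ (φ : U →* G) (f : Matrix (Fin n) (Fin n) (MonoidAlgebra ℤ U)),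
          f * f = f ∧ f.map (MonoidAlgebra.mapDomainRingHom ℤ φ) = e) ∧
      (Q1 ↔ AllStablyFree U) ∧ (Q1 ↔ ∃ r, ClassesGenerated U r)) := by
  have hQ : Q1 ↔ ∀ m R, AllStablyFree (TFQ m R) := by
    constructor
    · intro h m R
      exact h (TFQ m R) (Pool.Agent.T6.H30.UG.Q_TF ⟨m, R⟩)
    · intro h G _ hG
      exact Pool.Agent.T6.H30.UG.all_of_Q (fun i => h i.1 i.2) hG
  refine ⟨⟨?_, fun m R => Pool.Agent.T6.H30.UG.Q_TF ⟨m, R⟩, hQ⟩, ?_⟩
  · intro G _ hG n e he
    obtain ⟨i, φ, f, h1, h2⟩ := Pool.Agent.T6.H30.UG.lift_idem hG e he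
    exact ⟨i.1, i.2, φ, f, h1, h2⟩
  · refine ⟨Pool.Agent.T6.H30.UG.UU, inferInstance, Pool.Agent.T6.H30.UG.UU_countable,
      Pool.Agent.T6.H30.UG.UU_TF, ?_, ?_, ?_⟩
    · intro G _ hG n e he
      exact Pool.Agent.T6.H30.UG.univ_idem hG e he
    · constructor
      · intro h
        exact h _ Pool.Agent.T6.H30.UG.UU_TF
      · intro h
        rw [hQ]
        intro m R
        exact Pool.Agent.T6.H30.UG.univ_fg
          (Pool.Agent.T6.H30.UG.stablyGenerated_zero h 0) ⟨m, R⟩
    · constructor
      · intro h
        exact ⟨0, Pool.Agent.T6.H30.UG.stablyGenerated_zero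
          (h _ Pool.Agent.T6.H30.UG.UU_TF) 0⟩
      · rintro ⟨r, hr⟩
        rw [hQ]
        intro m R
        exact Pool.Agent.T6.H30.UG.univ_fg hr ⟨m, R⟩

end Pool.Agent.Results.MP_551055_al.UniversalGroup
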